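import Pool.Agent.Helper47.DS.Defs

/-!
# The lanes in one cell (row GEO-A of Theorem D* for MP_5165fa)
-/

open Set BIC
open scoped Matroid

namespace BICS

/-- a path given by a function -/
lemma isPth_map {f : ℕ → ℕ × ℕ} {n : ℕ} (h1 : ∀ i, i + 1 < n → adj (f i) (f (i + 1)))
    (h2 : ∀ i < n, ∀ j < n, f i = f j → i = j) : IsPth ((List.range n).map f) := by
  refine ⟨?_, ?_⟩
  · rw [List.isChain_iff_getElem]
    intro i hi
    rw [List.length_map, List.length_range] at hi
    rw [List.getElem_map, List.getElem_map, List.getElem_range, List.getElem_range]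
    exact h1 i hi
  · refine List.Nodup.map_on ?_ List.nodup_range
    intro a ha b hb hab
    exact h2 a (List.mem_range.1 ha) b (List.mem_range.1 hb) hab

lemma head_map {f : ℕ → ℕ × ℕ} {n : ℕ} (hn : 1 ≤ n) :
    ((List.range n).map f).head? = some (f 0) := by
  rw [List.head?_eq_getElem?, List.getElem?_map, List.getElem?_range (by omega)]
  rfl

lemma last_map {f : ℕ → ℕ × ℕ} {n : ℕ} (hn : 1 ≤ n) :
    ((List.range n).map f).getLast? = some (f (n - 1)) := by
  rw [List.getLast?_eq_getElem?, List.length_map, List.length_range, List.getElem?_map,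
    List.getElem?_range (by omega)]
  rfl

lemma mem_map_range {f : ℕ → ℕ × ℕ} {n : ℕ} {v : ℕ × ℕ} :
    v ∈ (List.range n).map f ↔ ∃ i < n, f i = v := by
  simp [List.mem_map, List.mem_range]

/-- the lane above the zone -/
def upper (k q w h i : ℕ) : ℕ × ℕ :=
  if i ≤ k - 1 - h then (i, h)
  else if i ≤ k - 1 - h + (k + q) then (k - 1 - h, h + (i - (k - 1 - h)))
  else if i ≤ w - 1 - (k - 1 - h) + (k + q) then (i - (k + q), h + (k + q))
  else if i ≤ w - 1 - (k - 1 - h) + 2 * (k + q) then
    (w - 1 - (k - 1 - h), h + (k + q) - (i - (w - 1 - (k - 1 - h) + (k + q))))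
  else (i - 2 * (k + q), h)

/-- the lane through the zone -/
def middle (k q X h A Z i : ℕ) : ℕ × ℕ :=
  if i ≤ k + q then (i, h)
  else if i < A then (k + q, h + (i - (k + q)))
  else if i < A + Z then
    (k + q + (C1Q.sn q (i - A)).1, k + (C1Q.sn q (i - A)).2)
  else if i < A + Z + (k - h) then (X, k - 1 - (i - (A + Z)))
  else (X + (i + 1 - (A + Z + (k - h))), h)

lemma upper_adj {k q w h i : ℕ} (hw : 2 * k + 1 ≤ w) (hh : h < k) : adj (upper k q w h i) (upper k q w h (i + 1)) := by
  unfold upper adj
  split_ifs <;> dsimp only <;> omega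

lemma upper_inj {k q w h i j : ℕ} (hw : 2 * k + 1 ≤ w) (hh : h < k)
    (hi : i < w + 2 * (k + q)) (hj : j < w + 2 * (k + q))
    (e : upper k q w h i = upper k q w h j) : i = j := by
  unfold upper at e
  rw [Prod.ext_iff] at e
  split_ifs at e <;> simp only at e <;> omega

lemma upper_disj {k q w h h' i j : ℕ} (hw : 2 * k + 1 ≤ w) (hh : h < h') (hh' : h' < k) :
    upper k q w h i ≠ upper k q w h' j := by
  intro e
  unfold upper at e
  rw [Prod.ext_iff] at e
  split_ifs at e <;> simp only at e <;> omega

lemma upper_mem {k q w h i : ℕ} (hw : 2 * k + q + 1 ≤ w) (hh : h < k)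
    (hi : i < w + 2 * (k + q)) : upper k q w h i ∈ rect 0 0 w w := by
  unfold upper rect
  rw [Set.mem_ofPred_eq]
  split_ifs <;> dsimp only <;> omega

lemma upper_tile {k q w h i s : ℕ} (hw : w = 2 * (k + q + 2) + s) (hs : s ≤ q) (hh : h < k) :
    upper k q w h i ∉ rect (k + q + 2) k s s := by
  intro e
  unfold upper rect at e
  rw [Set.mem_ofPred_eq] at e
  split_ifs at e <;> dsimp only at e <;> omega

lemma upper_straight {k q w h h' i j : ℕ} (hh : h' < h) : upper k q w h i ≠ (j, h') := by
  intro e
  unfold upper at e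
  rw [Prod.ext_iff] at e
  split_ifs at e <;> simp only at e <;> omega

section middle

variable {k q s X h A Z w : ℕ}

lemma sn_zero (q : ℕ) : C1Q.sn q 0 = (0, 0) := by
  unfold C1Q.sn
  simp

lemma sn_last (hq : 1 ≤ q) (s : ℕ) : C1Q.sn q ((2 + 2 * s) * q - 1) = (2 * s + 1, 0) := by
  have e : (2 + 2 * s) * q - 1 = q * (2 * s + 1) + (q - 1) := by
    have : (2 + 2 * s) * q = q * (2 * s + 1) + q := by ring
    omega
  have e1 : ((2 + 2 * s) * q - 1) / q = 2 * s + 1 := by
    rw [e, Nat.mul_add_div (by omega), Nat.div_eq_of_lt (by omega), add_zero]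
  have e2 : ((2 + 2 * s) * q - 1) % q = q - 1 := by
    rw [e, Nat.mul_add_mod, Nat.mod_eq_of_lt (by omega)]
  unfold C1Q.sn
  rw [e1, e2, if_neg (by omega)]
  simp

lemma middle_snake {i : ℕ} (hA : A = k + q + (k - h)) (hh : h < k) (h1 : A ≤ i)
    (h2 : i < A + Z) :
    middle k q X h A Z i = (k + q + (C1Q.sn q (i - A)).1, k + (C1Q.sn q (i - A)).2) := by
  unfold middle
  rw [if_neg (by omega), if_neg (by omega), if_pos h2]

lemma middle_adj (hq : 1 ≤ q) (hA : A = k + q + (k - h)) (hZ : Z = (2 + 2 * s) * q)
    (hX : X = k + q + (2 * s + 1)) (hh : h < k) (i : ℕ) :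
    adj (middle k q X h A Z i) (middle k q X h A Z (i + 1)) := by
  have hZ0 : 1 ≤ Z := by
    rw [hZ]
    exact Nat.mul_pos (by omega) (by omega)
  rcases Nat.lt_or_ge (i + 1) A with h1 | h1
  · unfold middle adj
    split_ifs <;> dsimp only <;> omega
  rcases Nat.eq_or_lt_of_le h1 with h2 | h2
  · rw [middle_snake (i := i + 1) hA hh (by omega) (by omega), show i + 1 - A = 0 by omega,
      sn_zero]
    unfold middle adj
    split_ifs <;> dsimp only <;> omega
  rcases Nat.lt_or_ge (i + 1) (A + Z) with h3 | h3
  · rw [middle_snake (i := i) hA hh (by omega) (by omega),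
      middle_snake (i := i + 1) hA hh (by omega) (by omega),
      show i + 1 - A = i - A + 1 by omega]
    have h4 := C1Q.sn_adj (q := q) (z := i - A) (by omega)
    unfold adj at h4 ⊢
    dsimp only
    omega
  rcases Nat.eq_or_lt_of_le h3 with h4 | h4
  · rw [middle_snake (i := i) hA hh (by omega) (by omega),
      show i - A = (2 + 2 * s) * q - 1 by omega, sn_last hq s]
    unfold middle adj
    split_ifs <;> dsimp only <;> omega
  · unfold middle adj
    split_ifs <;> dsimp only <;> omega

lemma middle_inj (hq : 1 ≤ q) (hA : A = k + q + (k - h)) (hX : X = k + q + (2 * s + 1))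
    (hh : h < k) {i j : ℕ} (e : middle k q X h A Z i = middle k q X h A Z j) : i = j := by
  by_cases h1 : A ≤ i ∧ i < A + Z
  · rw [middle_snake hA hh h1.1 h1.2] at e
    by_cases h2 : A ≤ j ∧ j < A + Z
    · rw [middle_snake hA hh h2.1 h2.2, Prod.ext_iff] at e
      have e1 : C1Q.sn q (i - A) = C1Q.sn q (j - A) := by
        rw [Prod.ext_iff]
        simp only at e
        omega
      have e2 : i - A = j - A := by
        rw [← C1Q.pos_sn (q := q) (z := i - A) (by omega), e1, C1Q.pos_sn (by omega)]
      omega
    · exfalso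
      unfold middle at e
      rw [Prod.ext_iff] at e
      split_ifs at e <;> simp only at e <;> omega
  · by_cases h2 : A ≤ j ∧ j < A + Z
    · exfalso
      rw [middle_snake hA hh h2.1 h2.2] at e
      unfold middle at e
      rw [Prod.ext_iff] at e
      split_ifs at e <;> simp only at e <;> omega
    · unfold middle at e
      rw [Prod.ext_iff] at e
      split_ifs at e <;> simp only at e <;> omega

lemma middle_mem (hq : 1 ≤ q) (hA : A = k + q + (k - h)) (hZ : Z = (2 + 2 * s) * q)
    (hX : X = k + q + (2 * s + 1)) (hh : h < k) (hs : s ≤ q) (hw : w = 2 * (k + q + 2) + s)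
    {i : ℕ} (hi : i < A + Z + ((k - h) + (w - 1 - X))) :
    middle k q X h A Z i ∈ rect 0 0 w w := by
  by_cases h1 : A ≤ i ∧ i < A + Z
  · rw [middle_snake hA hh h1.1 h1.2]
    have h2 : (C1Q.sn q (i - A)).1 < 2 + 2 * s := C1Q.sn_fst_lt (by omega)
    have h3 : (C1Q.sn q (i - A)).2 < q := C1Q.sn_snd_lt (by omega)
    unfold rect
    rw [Set.mem_ofPred_eq]
    dsimp only
    omega
  · unfold middle rect
    rw [Set.mem_ofPred_eq]
    split_ifs <;> dsimp only <;> omega

lemma middle_straight (hA : A = k + q + (k - h)) (hX : X = k + q + (2 * s + 1)) (hh : h < k)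
    {h' i j : ℕ} (hh' : h' < h) : middle k q X h A Z i ≠ (j, h') := by
  intro e
  unfold middle at e
  rw [Prod.ext_iff] at e
  split_ifs at e <;> simp only at e <;> omega

lemma middle_upper (hq : 1 ≤ q) (hA : A = k + q + (k - h)) (hZ : Z = (2 + 2 * s) * q)
    (hX : X = k + q + (2 * s + 1)) (hh : h < k) (hs : s ≤ q) (hw : w = 2 * (k + q + 2) + s)
    {h' i j : ℕ} (hh' : h < h') (hk' : h' < k) :
    middle k q X h A Z i ≠ upper k q w h' j := by
  intro e
  by_cases h1 : A ≤ i ∧ i < A + Z
  · rw [middle_snake hA hh h1.1 h1.2] at e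
    have h2 : (C1Q.sn q (i - A)).1 < 2 + 2 * s := C1Q.sn_fst_lt (by omega)
    have h3 : (C1Q.sn q (i - A)).2 < q := C1Q.sn_snd_lt (by omega)
    unfold upper at e
    rw [Prod.ext_iff] at e
    split_ifs at e <;> simp only at e <;> omega
  · unfold middle upper at e
    rw [Prod.ext_iff] at e
    split_ifs at e <;> simp only at e <;> omega

lemma middle_zone (hA : A = k + q + (k - h)) (hZ : Z = (2 + 2 * s) * q)
    (hh : h < k) (hs : s ≤ q) (hs1 : 1 ≤ s) :
    Zone q ((List.range Z).map (fun j => middle k q X h A Z (A + j)))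
      (rect (k + q + 2) k s s) := by
  have hZ1 : 4 * q ≤ Z := by
    rw [hZ]
    exact Nat.mul_le_mul_right _ (by omega)
  have hget : ∀ j < Z, ((List.range Z).map (fun j => middle k q X h A Z (A + j)))[j]? =
      some (k + q + (C1Q.sn q j).1, k + (C1Q.sn q j).2) := by
    intro j hj
    rw [List.getElem?_map, List.getElem?_range hj, Option.map_some,
      middle_snake hA hh (by omega) (by omega), Nat.add_sub_cancel_left]
  refine ⟨?_, ?_, ?_⟩
  · intro j hj
    refine ⟨_, _, hget _ (by omega), hget _ (by omega), ?_⟩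
    have h4 := C1Q.sn_rung (q := q) (s := 0) (j := j) hj
    rw [Nat.zero_mul, Nat.zero_add] at h4
    rw [show q - 1 - j = q - 1 - j by rfl]
    unfold adj at h4 ⊢
    dsimp only
    omega
  · rw [List.length_map, List.length_range]
    omega
  · intro v hv
    unfold rect at hv
    rw [Set.mem_ofPred_eq] at hv
    have h5 : C1Q.pos q (v.1 - (k + q), v.2 - k) < Z := by
      rw [hZ]
      exact C1Q.pos_lt (by dsimp only; omega) (by dsimp only; omega)
    have h6 : 2 * q ≤ C1Q.pos q (v.1 - (k + q), v.2 - k) :=
      (C1Q.pos_mem_Ico (s := 2) (t := 2 + 2 * s) (by dsimp only; omega) (by dsimp only; omega)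
        (by dsimp only; omega)).1
    have h7 : C1Q.sn q (C1Q.pos q (v.1 - (k + q), v.2 - k)) = (v.1 - (k + q), v.2 - k) :=
      C1Q.sn_pos (by dsimp only; omega)
    have h8 := hget _ h5
    rw [h7] at h8
    rw [List.mem_iff_getElem?]
    refine ⟨C1Q.pos q (v.1 - (k + q), v.2 - k) - 2 * q, ?_⟩
    rw [List.getElem?_drop, Nat.add_sub_cancel' h6, h8]
    congr 1
    rw [Prod.ext_iff]
    dsimp only
    omega

end middle

/-- **Row GEO-A.** The lanes in one cell. -/
theorem cellStmt {k q s : ℕ} (hs1 : 1 ≤ s) (hs : s ≤ q) : CellStmt k q s := by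
  have hq : 1 ≤ q := by omega
  refine ⟨2 * (k + q + 2) + s, k + q + 2, k, rfl, by omega, by omega, by omega, ?_⟩
  obtain ⟨w, hw⟩ : ∃ w, w = 2 * (k + q + 2) + s := ⟨_, rfl⟩
  rw [← hw]
  -- the three kinds of lanes
  have hst : ∀ h : ℕ, h < k → IsPth ((List.range w).map fun i => (i, h)) ∧
      ((List.range w).map fun i => (i, h)).head? = some (0, h) ∧
      ((List.range w).map fun i => (i, h)).getLast? = some (w - 1, h) ∧
      ∀ v ∈ (List.range w).map fun i => (i, h), v ∈ rect 0 0 w w := by
    intro h hh
    refine ⟨isPth_map ?_ ?_, head_map (by omega), last_map (by omega), ?_⟩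
    · intro i _
      unfold adj
      dsimp only
      omega
    · intro i _ j _ e
      rw [Prod.ext_iff] at e
      exact e.1
    · intro v hv
      obtain ⟨i, hi, rfl⟩ := mem_map_range.1 hv
      unfold rect
      rw [Set.mem_ofPred_eq]
      dsimp only
      omega
  have hstt : ∀ h : ℕ, h < k → ∀ v ∈ (List.range w).map fun i => (i, h),
      v ∉ rect (k + q + 2) k s s := by
    intro h hh v hv
    obtain ⟨i, hi, rfl⟩ := mem_map_range.1 hv
    unfold rect
    rw [Set.mem_ofPred_eq]
    dsimp only
    omega
  have hup : ∀ h : ℕ, h < k → IsPth ((List.range (w + 2 * (k + q))).map (upper k q w h)) ∧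
      ((List.range (w + 2 * (k + q))).map (upper k q w h)).head? = some (0, h) ∧
      ((List.range (w + 2 * (k + q))).map (upper k q w h)).getLast? = some (w - 1, h) ∧
      ∀ v ∈ (List.range (w + 2 * (k + q))).map (upper k q w h), v ∈ rect 0 0 w w := by
    intro h hh
    refine ⟨isPth_map (fun i _ => upper_adj (by omega) hh)
      (fun i hi j hj e => upper_inj (by omega) hh hi hj e), ?_, ?_, ?_⟩
    · rw [head_map (by omega)]
      unfold upper
      rw [if_pos (by omega)]
    · rw [last_map (by omega)]
      unfold upper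
      rw [if_neg (by omega), if_neg (by omega), if_neg (by omega)]
      split_ifs
      · congr 1
        rw [Prod.ext_iff]
        dsimp only
        omega
      · congr 1
        rw [Prod.ext_iff]
        dsimp only
        omega
    · intro v hv
      obtain ⟨i, hi, rfl⟩ := mem_map_range.1 hv
      exact upper_mem (by omega) hh hi
  obtain ⟨Z, hZ⟩ : ∃ Z, Z = (2 + 2 * s) * q := ⟨_, rfl⟩
  obtain ⟨X, hX⟩ : ∃ X, X = k + q + (2 * s + 1) := ⟨_, rfl⟩
  have hmi : ∀ h : ℕ, h < k → ∀ A B : ℕ, A = k + q + (k - h) → B = (k - h) + (w - 1 - X) →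
      IsPth ((List.range (A + Z + B)).map (middle k q X h A Z)) ∧
      ((List.range (A + Z + B)).map (middle k q X h A Z)).head? = some (0, h) ∧
      ((List.range (A + Z + B)).map (middle k q X h A Z)).getLast? = some (w - 1, h) ∧
      ∀ v ∈ (List.range (A + Z + B)).map (middle k q X h A Z), v ∈ rect 0 0 w w := by
    intro h hh A B hA hB
    refine ⟨isPth_map (fun i _ => middle_adj hq hA hZ hX hh i)
      (fun i hi j hj e => middle_inj hq hA hX hh e), ?_, ?_, ?_⟩
    · rw [head_map (by omega)]
      unfold middle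
      rw [if_pos (by omega)]
    · rw [last_map (by omega)]
      unfold middle
      rw [if_neg (by omega), if_neg (by omega), if_neg (by omega), if_neg (by omega)]
      congr 1
      rw [Prod.ext_iff]
      dsimp only
      omega
    · intro v hv
      obtain ⟨i, hi, rfl⟩ := mem_map_range.1 hv
      exact middle_mem hq hA hZ hX hh hs hw (by omega)
  intro g
  rcases g with _ | g
  · refine ⟨fun h => (List.range w).map fun i => (i, (h : ℕ)), fun h => hst h h.2, ?_, ?_, ?_⟩
    · intro h h' hne v hv hv'
      obtain ⟨i, hi, rfl⟩ := mem_map_range.1 hv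
      obtain ⟨j, hj, e⟩ := mem_map_range.1 hv'
      rw [Prod.ext_iff] at e
      exact hne (Fin.ext e.2.symm)
    · intro h _ v hv
      exact hstt h h.2 v hv
    · intro h hc
      exact absurd hc (by simp)
  · obtain ⟨A, hA⟩ : ∃ A, A = k + q + (k - (g : ℕ)) := ⟨_, rfl⟩
    obtain ⟨B, hB⟩ : ∃ B, B = (k - (g : ℕ)) + (w - 1 - X) := ⟨_, rfl⟩
    have hg := g.2
    refine ⟨fun h => if (h : ℕ) < g then (List.range w).map fun i => (i, (h : ℕ))
      else if (h : ℕ) = g then (List.range (A + Z + B)).map (middle k q X g A Z)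
      else (List.range (w + 2 * (k + q))).map (upper k q w h), ?_, ?_, ?_, ?_⟩
    · intro h
      dsimp only
      split_ifs with c1 c2
      · exact hst h h.2
      · rw [c2]
        exact hmi g g.2 A B hA hB
      · exact hup h h.2
    · -- disjointness
      have key : ∀ h h' : Fin k, (h : ℕ) < h' → ∀ v,
          v ∈ (if (h : ℕ) < g then (List.range w).map fun i => (i, (h : ℕ))
            else if (h : ℕ) = g then (List.range (A + Z + B)).map (middle k q X g A Z)
            else (List.range (w + 2 * (k + q))).map (upper k q w h)) →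
          v ∈ (if (h' : ℕ) < g then (List.range w).map fun i => (i, (h' : ℕ))
            else if (h' : ℕ) = g then (List.range (A + Z + B)).map (middle k q X g A Z)
            else (List.range (w + 2 * (k + q))).map (upper k q w h')) → False := by
        intro h h' hlt v hv hv'
        have hk' := h'.2
        split_ifs at hv hv' with c1 c2 c3 c4 c5 c6 c7 c8
        all_goals
          obtain ⟨i, hi, rfl⟩ := mem_map_range.1 hv
          obtain ⟨j, hj, e⟩ := mem_map_range.1 hv'
        · rw [Prod.ext_iff] at e
          simp only at e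
          omega
        · exact middle_straight hA hX hg c1 e
        · exact upper_straight (by omega) e
        · omega
        · omega
        · exact middle_upper hq hA hZ hX hg hs hw (by omega) hk' e.symm
        · omega
        · omega
        · exact upper_disj (by omega) hlt hk' e.symm
      intro h h' hne v hv hv'
      rcases Nat.lt_or_ge (h : ℕ) h' with c | c
      · exact key h h' c v hv hv'
      · exact key h' h (by
          rcases Nat.eq_or_lt_of_le c with c' | c'
          · exact absurd (Fin.ext c'.symm) hne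
          · exact c') v hv' hv
    · intro h hne v hv
      have hne' : (h : ℕ) ≠ g := fun c => hne (by rw [Fin.ext c])
      dsimp only at hv
      split_ifs at hv with c1
      · exact hstt h h.2 v hv
      · obtain ⟨i, hi, rfl⟩ := mem_map_range.1 hv
        exact upper_tile hw hs h.2
    · intro h he
      have he' : g = h := by simpa using he
      subst he'
      refine ⟨(List.range A).map (middle k q X g A Z),
        (List.range Z).map (fun j => middle k q X g A Z (A + j)),
        (List.range B).map (fun j => middle k q X g A Z (A + Z + j)), ?_,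
        middle_zone hA hZ hg hs hs1⟩
      dsimp only
      rw [if_neg (lt_irrefl _), if_pos rfl, List.range_add, List.range_add, List.map_append,
        List.map_append, List.map_map, List.map_map]
      rfl

end BICS
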